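import Pool.Agent.J4H35.CB.A

/-!
# The grouping lemma, third version: the groups
-/

set_option autoImplicit false
set_option linter.unusedSectionVars false

namespace Pool.Agent.J4H35.CB

open Finset Pool.Agent.Y823.Z

variable {ι : Type} [Fintype ι] [DecidableEq ι] {t X : ι → ℝ} {cl : ι → Bool} {n : ℝ}

/-- The greedy choice of the set `A`, common part. `ω` is `X` on `R` and `2 X` elsewhere. -/
theorem Dat3.pickA (D : Dat3 t X cl n) (V R : Finset ι) (hR : R ⊆ univ \ V) (lo hi : ℝ)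
    (hhi : 0.665 ≤ hi) (hlo : lo ≤ ∑ z ∈ R, X z)
    (hno : ∀ y s : ℝ, 0 ≤ s → hi - lo + s < 2 * y → 2 * y ≤ hi → s < lo - 2 * y →
      (∀ x F : ℝ, x < y → F ≤ ∑ z ∈ univ.filter (fun z => t z ≤ x), t z →
        F - 2.064 + ∑ z, X z - ∑ z ∈ V, X z ≤ s) → False) :
    ∃ A ⊆ univ \ V, lo ≤ ∑ z ∈ A, (if z ∈ R then X z else 2 * X z) ∧
      ∑ z ∈ A, (if z ∈ R then X z else 2 * X z) ≤ hi := by
  set ω : ι → ℝ := fun z => if z ∈ R then X z else 2 * X z with hω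
  have hω1 : ∀ z, X z ≤ ω z := by
    intro z
    have := D.h0 z
    simp only [hω]
    split_ifs <;> linarith
  have hω2 : ∀ z, ω z ≤ 2 * X z := by
    intro z
    have := D.h0 z
    simp only [hω]
    split_ifs <;> linarith
  have hω0 : ∀ z, 0 ≤ ω z := fun z => (D.h0 z).trans (hω1 z)
  obtain ⟨A, hAS, hAc, hA⟩ := greedy ω hi (by linarith)
    ((univ \ V).filter (fun z => ω z ≤ hi)) (fun z _ => hω0 z)
  refine ⟨A, hAS.trans (filter_subset _ _), ?_, hAc⟩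
  by_contra hlt
  push Not at hlt
  rcases hA with hA | ⟨r, hrS, hrA, hr1, hr2⟩
  · have h1 : ∑ z ∈ R, X z ≤ ∑ z ∈ A, ω z := by
      calc ∑ z ∈ R, X z ≤ ∑ z ∈ R, ω z := sum_le_sum fun z _ => hω1 z
        _ ≤ ∑ z ∈ A, ω z := by
            refine sum_le_sum_of_subset_of_nonneg ?_ fun z _ _ => hω0 z
            intro z hz
            rw [hA, mem_filter]
            refine ⟨hR hz, ?_⟩
            have h2 : ω z = X z := by simp only [hω, if_pos hz]
            have := D.h1 z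
            have := D.h2 z
            linarith
    linarith
  · have hrc : ω r ≤ hi := (mem_filter.1 hrS).2
    have h1 : ∑ z ∈ A, ω z = ∑ z ∈ A.filter (fun z => ω r ≤ ω z), ω z +
        ∑ z ∈ A.filter (fun z => ¬ ω r ≤ ω z), ω z := (sum_filter_add_sum_filter_not _ _ _).symm
    have h2 : ω r ≤ ∑ z ∈ A.filter (fun z => ω r ≤ ω z), ω z := by
      have hne : (A.filter (fun z => ω r ≤ ω z)).Nonempty := by
        rw [nonempty_iff_ne_empty]
        intro he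
        rw [he, sum_empty] at hr1
        linarith
      obtain ⟨w, hw⟩ := hne
      exact (mem_filter.1 hw).2.trans (single_le_sum (f := ω) (fun z _ => hω0 z) hw)
    have h3 : ∑ z ∈ (univ \ V).filter (fun z => t z < ω r / 2), X z ≤
        ∑ z ∈ A.filter (fun z => ¬ ω r ≤ ω z), ω z := by
      calc ∑ z ∈ (univ \ V).filter (fun z => t z < ω r / 2), X z ≤
          ∑ z ∈ (univ \ V).filter (fun z => t z < ω r / 2), ω z := sum_le_sum fun z _ => hω1 z
        _ ≤ ∑ z ∈ A.filter (fun z => ¬ ω r ≤ ω z), ω z := by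
            refine sum_le_sum_of_subset_of_nonneg ?_ fun z _ _ => hω0 z
            intro z hz
            rw [mem_filter] at hz
            have h4 : ω z < ω r := by
              have := hω2 z
              have := D.h1 z
              have := hz.2
              linarith
            rw [mem_filter]
            refine ⟨hr2 z (mem_filter.2 ⟨hz.1, ?_⟩) h4, not_le.2 h4⟩
            linarith
    have h5 : 0 ≤ ∑ z ∈ A.filter (fun z => ¬ ω r ≤ ω z), ω z := sum_nonneg fun z _ => hω0 z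
    refine hno (ω r / 2) _ h5 (by linarith) (by linarith) (by linarith) ?_
    intro x F hx hF
    have := D.star V x (ω r / 2) F hx hF
    linarith

/-- Step 4: the set `A` -/
theorem Dat3.step4 (D : Dat3 t X cl n) (hn0 : 3 / 2 - 0.000001 ≤ n) (hn : n < 1.7) (V R : Finset ι)
    (hV2 : ∑ z ∈ V, X z ≤ 0.0749 + (2.064 - ∑ z, X z) / 2) (hR : R ⊆ univ \ V)
    (hρ1 : ∑ z ∈ R, X z ≤ n)
    (hρ : n - (2.0695 - ∑ z, X z) - 0.00001 ≤ ∑ z ∈ R, X z) : ∃ A ⊆ univ \ V,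
    4 - 3 * n + 18 * (∑ z, X z - 2) + 9 * (n - ∑ z ∈ R, X z) - 2 * ∑ z ∈ V, X z + 0.000002 ≤
      ∑ z ∈ A, (if z ∈ R then X z else 2 * X z) ∧
    ∑ z ∈ A, (if z ∈ R then X z else 2 * X z) ≤
      n - 4 * ∑ z ∈ V, X z - 8 * (∑ z, X z - 2) - 4 * (n - ∑ z ∈ R, X z) - 0.000002 := by
  have hX := D.hX
  have hle := D.le
  have hV0 : 0 ≤ ∑ z ∈ V, X z := sum_nonneg fun z _ => D.h0 z
  refine D.pickA V R hR _ _ (by linarith) (by linarith) ?_
  intro y s hs h1 h2 h3 key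
  have y0 : 0.042 < y := by linarith
  have y1 := key _ _ y0 D.s3
  have y2 := key _ _ (show (0.108 : ℝ) < y by linarith) D.s4
  linarith

/-- Step 4 in the smooth case -/
theorem Dat3.step4s (D : Dat3 t X cl n) (R : Finset ι)
    (hρ : n - (2.0695 - ∑ z, X z) - 0.00001 ≤ ∑ z ∈ R, X z) : ∃ A ⊆ univ \ (∅ : Finset ι),
    4 - 3 * n + 10 * (∑ z, X z - 2) + 5 * (n - ∑ z ∈ R, X z) + 0.000002 ≤
      ∑ z ∈ A, (if z ∈ R then X z else 2 * X z) ∧
    ∑ z ∈ A, (if z ∈ R then X z else 2 * X z) ≤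
      n - 4 * (∑ z, X z - 2) - 2 * (n - ∑ z ∈ R, X z) - 0.000002 := by
  have hX := D.hX
  have hle := D.le
  have hn1 := D.hn1
  refine D.pickA ∅ R (by simp) _ _ (by linarith) (by linarith) ?_
  intro y s hs h1 h2 h3 key
  rw [sum_empty] at key
  have y0 : 0.021 < y := by linarith
  have y1 := key _ _ y0 D.s2
  have y2 := key _ _ (show (0.042 : ℝ) < y by linarith) D.s3
  have y3 := key _ _ (show (0.108 : ℝ) < y by linarith) D.s4
  have y4 := key _ _ (show (0.178 : ℝ) < y by linarith) D.s5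
  have y5 := key _ _ (show (0.214 : ℝ) < y by linarith) D.s6
  linarith

/-- The groups from the three sets. -/
theorem groups3 (X : ι → ℝ) (V R A : Finset ι) (hR : R ⊆ univ \ V) (hA : A ⊆ univ \ V) :
    ∃ g : ι → Fin 5, (∀ z, g z = 4 → z ∈ V) ∧
      ∀ Y : Fin 5 → ℝ, (∀ i, Y i = ∑ z ∈ univ.filter (fun z => g z = i), X z) →
      Y 0 + Y 1 = ∑ z ∈ R, X z ∧ Y 0 + 2 * Y 2 = ∑ z ∈ A, (if z ∈ R then X z else 2 * X z) ∧
      Y 4 = ∑ z ∈ V, X z ∧ Y 0 + Y 1 + Y 2 + Y 3 + Y 4 = ∑ z, X z := by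
  refine ⟨fun z => if z ∈ V then 4 else if z ∈ R then (if z ∈ A then 0 else 1) else
    (if z ∈ A then 2 else 3), ?_, ?_⟩
  · intro z hz
    by_contra h1
    simp only [if_neg h1] at hz
    split_ifs at hz <;> exact absurd hz (by decide)
  intro Y hY
  have hRV : ∀ z ∈ R, z ∉ V := fun z hz => (mem_sdiff.1 (hR hz)).2
  have hAV : ∀ z ∈ A, z ∉ V := fun z hz => (mem_sdiff.1 (hA hz)).2
  simp only [hY, sum_filter]
  have e1 : ∑ z ∈ R, X z = ∑ z, if z ∈ R then X z else 0 := by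
    rw [← sum_filter]
    congr 1
    ext z
    simp
  have e2 : ∑ z ∈ A, (if z ∈ R then X z else 2 * X z) =
      ∑ z, if z ∈ A then (if z ∈ R then X z else 2 * X z) else 0 := by
    rw [← sum_filter]
    congr 1
    ext z
    simp
  have e3 : ∑ z ∈ V, X z = ∑ z, if z ∈ V then X z else 0 := by
    rw [← sum_filter]
    congr 1
    ext z
    simp
  rw [e1, e2, e3, mul_sum]
  refine ⟨?_, ?_, ?_, ?_⟩
  · rw [← sum_add_distrib]
    refine sum_congr rfl fun z _ => ?_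
    have h1 := hRV z
    have h2 := hAV z
    by_cases hz1 : z ∈ V <;> by_cases hz2 : z ∈ R <;> by_cases hz3 : z ∈ A <;>
      simp_all
  · rw [← sum_add_distrib]
    refine sum_congr rfl fun z _ => ?_
    have h1 := hRV z
    have h2 := hAV z
    by_cases hz1 : z ∈ V <;> by_cases hz2 : z ∈ R <;> by_cases hz3 : z ∈ A <;>
      simp_all
  · refine sum_congr rfl fun z _ => ?_
    have h1 := hRV z
    have h2 := hAV z
    by_cases hz1 : z ∈ V <;> by_cases hz2 : z ∈ R <;> by_cases hz3 : z ∈ A <;>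
      simp_all
  · rw [← sum_add_distrib, ← sum_add_distrib, ← sum_add_distrib, ← sum_add_distrib]
    refine sum_congr rfl fun z _ => ?_
    have h1 := hRV z
    have h2 := hAV z
    by_cases hz1 : z ∈ V <;> by_cases hz2 : z ∈ R <;> by_cases hz3 : z ∈ A <;>
      simp_all

/-- The grouping lemma for nonnegative exponents. -/
theorem Dat3.main (D : Dat3 t X cl n) (hn0 : 3 / 2 - 0.000001 ≤ n) :
    ∃ g : ι → Fin 5, ∀ Y : Fin 5 → ℝ,
    (∀ i, Y i = ∑ z ∈ univ.filter (fun z => g z = i), X z) →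
    Y 0 + Y 1 + Y 2 + Y 3 + Y 4 = ∑ z, X z ∧ ∃ H : ℝ, 0 ≤ H ∧
      H = 2 * (∑ z, X z - 2) + (n - (Y 0 + Y 1)) ∧
      Y 0 + Y 1 + 0.000001 ≤ n ∧ Y 0 + Y 1 + 2 * Y 2 + 2 * Y 3 + 0.000001 ≤ 4 - n ∧
      Y 0 + 2 * Y 2 + 4 * Y 4 + 4 * H + 0.000001 ≤ n ∧
      Y 1 + 2 * Y 3 + 8 * H + 0.000001 ≤ 2 * n ∧
      8 * H + 0.000001 ≤ Y 1 + 2 * Y 3 := by
  have hX := D.hX
  have hn1 := D.hn1
  have hn2 := D.hn2
  have hTT := D.le
  obtain ⟨τp, hτ0, hτ1, hτ2⟩ : ∃ τp : ℝ, 0 ≤ τp ∧ ∑ z, X z - 2 ≤ τp ∧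
      τp ≤ ∑ z, X z - 2 + 0.000001 := by
    refine ⟨max 0 (∑ z, X z - 2), le_max_left _ _, le_max_right _ _, ?_⟩
    refine max_le ?_ ?_ <;> linarith
  obtain ⟨h, V, hh1, hh2, hh3, hV1, hV2, hV3, hV4⟩ := D.step1 τp hτ0 hτ2
  obtain ⟨R, hRV, hRc, hR⟩ := D.step2 h V hh1 hV3 hV4 (fun hn14 => absurd hn14 (by linarith))
  by_cases hn : n < 1.7
  · -- then `R` is not everything
    have hρ : n - h - 0.00001 ≤ ∑ z ∈ R, X z := by
      rcases hR with hR | hR
      · exfalso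
        have h1 := sum_sdiff (f := X) (subset_univ V)
        rw [hR] at hRc
        linarith
      · exact hR
    obtain ⟨A, hAV, hA1, hA2⟩ := D.step4 hn0 hn V R hV2 hRV (by linarith) (by linarith)
    obtain ⟨g, _, hg⟩ := groups3 X V R A hRV hAV
    refine ⟨g, fun Y hY => ?_⟩
    obtain ⟨g1, g2, g3, g4⟩ := hg Y hY
    refine ⟨g4, _, ?_, rfl, ?_, ?_, ?_, ?_, ?_⟩ <;> linarith
  · push Not at hn
    obtain ⟨g, _, hg⟩ := groups3 X V R ∅ hRV (empty_subset _)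
    refine ⟨g, fun Y hY => ?_⟩
    obtain ⟨g1, g2, g3, g4⟩ := hg Y hY
    rw [sum_empty] at g2
    have hρ : n - h - 0.00001 ≤ ∑ z ∈ R, X z ∨
        (∑ z ∈ R, X z = ∑ z, X z - ∑ z ∈ V, X z) := by
      rcases hR with hR | hR
      · right
        have h1 := sum_sdiff (f := X) (subset_univ V)
        rw [hR]
        linarith
      · exact Or.inl hR
    refine ⟨g4, _, ?_, rfl, ?_, ?_, ?_, ?_, ?_⟩
    · rcases hρ with h | h <;> linarith
    · linarith
    · rcases hρ with h | h <;> linarith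
    · rcases hρ with h | h <;> linarith
    · rcases hρ with h | h <;> linarith
    · rcases hρ with h | h <;> linarith

/-- The grouping lemma for nonnegative exponents, smooth case. -/
theorem Dat3.mains (D : Dat3 t X cl n) (hn0 : n ≤ 3 / 2 + 0.000001) :
    ∃ g : ι → Fin 5, (∀ z, g z ≠ 4) ∧ ∀ Y : Fin 5 → ℝ,
    (∀ i, Y i = ∑ z ∈ univ.filter (fun z => g z = i), X z) →
    Y 0 + Y 1 + Y 2 + Y 3 = ∑ z, X z ∧ ∃ H : ℝ, 0 ≤ H ∧
      H = 2 * (∑ z, X z - 2) + (n - (Y 0 + Y 1)) ∧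
      Y 0 + Y 1 + 0.000001 ≤ n ∧
      Y 0 + 2 * Y 2 + 2 * H + 0.000001 ≤ n ∧
      Y 1 + 2 * Y 3 + 4 * H + 0.000001 ≤ 2 * n ∧
      4 * H + 0.000001 ≤ Y 1 + 2 * Y 3 := by
  have hX := D.hX
  have hn1 := D.hn1
  have hTT := D.le
  obtain ⟨h, hh1, hh2, hh3, hV3, hV4⟩ := D.step1'
  obtain ⟨R, hRV, hRc, hR⟩ := D.step2 h ∅ hh1 hV3 hV4 (fun _ => by rw [sum_empty])
  have hρ : n - h - 0.00001 ≤ ∑ z ∈ R, X z := by
    rcases hR with hR | hR
    · exfalso
      rw [hR, sdiff_empty] at hRc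
      linarith
    · exact hR
  obtain ⟨A, hAV, hA1, hA2⟩ := D.step4s R (by linarith)
  obtain ⟨g, hg4, hg⟩ := groups3 X ∅ R A hRV hAV
  refine ⟨g, fun z hz => absurd (hg4 z hz) (notMem_empty z), fun Y hY => ?_⟩
  obtain ⟨g1, g2, g3, g4⟩ := hg Y hY
  rw [sum_empty] at g3
  refine ⟨by linarith, _, ?_, rfl, ?_, ?_, ?_, ?_⟩ <;> linarith

end Pool.Agent.J4H35.CB
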