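import Pool.Agent.J4H35.CR.Defs
import Pool.Agent.Y823.Z.Comb
import Pool.Agent.J4H35.CB.B

/-!
# The grouping lemma, third version
-/

set_option autoImplicit false

namespace Pool.Agent.J4H35.CB

open Finset Pool.Agent.Y823.Z Pool.Agent.H95R2.BG Pool.Agent.Y826.Z Pool.Agent.J4H35.ZZ Pool.Agent.J4H35.CR

/-- good cells: no large coordinate, and enough small coordinates on all scales -/
structure Gd3 {K0 : ℕ} (N1 : ℕ) (c : Fin K0 → ℕ) : Prop where
  cap : ∀ j, ((c j : ℝ) + 1) / N1 ≤ 0.665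
  rd : (rad c : ℝ) / N1 ≤ 1.1122
  s0 : 0.0078 ≤ Sm N1 0.0055 c
  s1 : 0.0171 ≤ Sm N1 0.008 c
  s2 : 0.0557 ≤ Sm N1 0.021 c
  s3 : 0.0887 ≤ Sm N1 0.042 c
  s4 : 0.1469 ≤ Sm N1 0.108 c
  s5 : 0.1813 ≤ Sm N1 0.178 c
  s6 : 0.2131 ≤ Sm N1 0.214 c
  s7 : 0.2342 ≤ Sm N1 0.355 c

/-- two good cells can be evaluated up to the total radius `2.064` -/
def S_COMB3 : Prop := ∀ (K0 N1 : ℕ), 0 < N1 → ∀ c c' : Fin K0 → ℕ, Gd3 N1 c → Gd3 N1 c' →
  ((rad c + rad c' : ℕ) : ℝ) / N1 ≤ 2.064 → Ev3 N1 c c'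

theorem large_one3 {K0 : ℕ} (N1 : ℕ) (c : Fin K0 → ℕ) (h : Gd3 N1 c) :
    ∑ j, (if 0.355 < ((c j : ℝ) + 1) / N1 then ((c j : ℝ) + 1) / N1 else 0) ≤ 0.878 := by
  have h1 : ∑ j, (if 0.355 < ((c j : ℝ) + 1) / N1 then ((c j : ℝ) + 1) / N1 else 0) +
      Sm N1 0.355 c = (rad c : ℝ) / N1 := by
    unfold Sm rad
    push_cast
    rw [← sum_add_distrib, Finset.sum_div]
    refine sum_congr rfl fun j _ => ?_
    by_cases h2 : ((c j : ℝ) + 1) / N1 ≤ 0.355
    · rw [if_neg (not_lt.2 h2), if_pos h2, zero_add]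
    · rw [if_pos (not_le.1 h2), if_neg h2, add_zero]
  have := h.rd
  have := h.s7
  linarith

theorem tt_large3 {K0 : ℕ} (N1 : ℕ) (c c' : Fin K0 → ℕ) (h : Gd3 N1 c) (h' : Gd3 N1 c') (b : Bool) :
    ∑ z ∈ univ.filter (fun z => cc z = b ∧ 0.355 < tt N1 c c' z), tt N1 c c' z ≤ 0.878 := by
  rw [sum_filter, Fin.sum_univ_add]
  simp only [tt, cc, Fin.append_left, Fin.append_right]
  cases b
  · simpa using large_one3 N1 c' h'
  · simpa using large_one3 N1 c h

theorem comb3 : S_COMB3 := by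
  intro K0 N1 hN1 c c' h h' hrad
  have hN1' : (0 : ℝ) < N1 := by exact_mod_cast hN1
  right
  refine ⟨?_, 0.00000001 / ((K0 : ℝ) + 1), by positivity, ?_⟩
  · rw [div_le_iff₀ hN1'] at hrad
    have h1 : (25 * (rad c + rad c') : ℝ) ≤ 54 * N1 := by
      push_cast at hrad
      linarith
    exact_mod_cast h1
  set δ : ℝ := 0.00000001 / ((K0 : ℝ) + 1) with hδ
  have hK : (0 : ℝ) ≤ K0 := Nat.cast_nonneg _
  have hδ0 : 0 < δ := by positivity
  have hδK : δ * ((K0 : ℝ) + 1) = 0.00000001 := by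
    rw [hδ]
    field_simp
  have hδ1 : δ ≤ 0.00000001 := by nlinarith
  have htp : ∀ z, 4 * tp (fun j => ((c j : ℝ) + 1) / N1) (fun j => ((c' j : ℝ) + 1) / N1) z =
      tt N1 c c' z := by
    intro z
    refine Fin.addCases (fun j => ?_) (fun j => ?_) z
    · simp only [tp, tt, Fin.append_left]
      ring
    · simp only [tp, tt, Fin.append_right]
      ring
  have htt0 : ∀ z, 0 ≤ tt N1 c c' z := by
    intro z
    refine Fin.addCases (fun j => ?_) (fun j => ?_) z
    · simp only [tt, Fin.append_left]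
      positivity
    · simp only [tt, Fin.append_right]
      positivity
  have htt2 : ∀ z, tt N1 c c' z ≤ 0.665 := by
    intro z
    refine Fin.addCases (fun j => ?_) (fun j => ?_) z
    · simp only [tt, Fin.append_left]
      exact h.cap j
    · simp only [tt, Fin.append_right]
      exact h'.cap j
  have mk : ∀ x : Fin (K0 + K0) → ℝ, (∀ j, -δ ≤ x j ∧
      x j ≤ tp (fun j => ((c j : ℝ) + 1) / N1) (fun j => ((c' j : ℝ) + 1) / N1) j) →
      1 / 2 - δ ≤ ∑ j, x j → ∀ ν : ℝ, 5 / 16 - δ ≤ ν → ν ≤ 1 / 2 + δ →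
      Dat3 (tt N1 c c') (fun z => max (4 * x z) 0) cc (4 * ν) := by
    intro x hx hsum ν hν1 hν2
    have hX1 : ∀ z, 4 * x z ≤ max (4 * x z) 0 := fun z => le_max_left _ _
    refine ⟨fun z => le_max_right _ _, fun z => max_le ?_ (htt0 z), htt2, ?_, ?_, ?_, ?_, ?_, ?_,
      ?_, ?_, ?_, ?_, ?_, ?_, tt_large3 N1 c c' h h'⟩
    · rw [← htp z]
      have := (hx z).2
      linarith
    · rw [tt_sum]
      push_cast at hrad
      rw [add_div] at hrad
      exact hrad
    · have h1 : ∑ z, 4 * x z ≤ ∑ z, max (4 * x z) 0 := sum_le_sum fun z _ => hX1 z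
      rw [← mul_sum] at h1
      linarith
    · linarith
    · linarith
    · rw [tt_small]
      have := h.s0
      have := h'.s0
      linarith
    · rw [tt_small]
      have := h.s1
      have := h'.s1
      linarith
    · rw [tt_small]
      have := h.s2
      have := h'.s2
      linarith
    · rw [tt_small]
      have := h.s3
      have := h'.s3
      linarith
    · rw [tt_small]
      have := h.s4
      have := h'.s4
      linarith
    · rw [tt_small]
      have := h.s5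
      have := h'.s5
      linarith
    · rw [tt_small]
      have := h.s6
      have := h'.s6
      linarith
    · rw [tt_small]
      have := h.s7
      have := h'.s7
      linarith
  -- comparison of the sums
  have cmp : ∀ (x : Fin (K0 + K0) → ℝ), (∀ j, -δ ≤ x j ∧
      x j ≤ tp (fun j => ((c j : ℝ) + 1) / N1) (fun j => ((c' j : ℝ) + 1) / N1) j) →
      ∀ (g : Fin (K0 + K0) → Fin 5) (i : Fin 5),
      4 * (∑ z ∈ univ.filter (fun z => g z = i), x z) ≤
        ∑ z ∈ univ.filter (fun z => g z = i), max (4 * x z) 0 ∧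
      ∑ z ∈ univ.filter (fun z => g z = i), max (4 * x z) 0 ≤
        4 * (∑ z ∈ univ.filter (fun z => g z = i), x z) + 0.00000008 := by
    intro x hx g i
    have hX1 : ∀ z, 4 * x z ≤ max (4 * x z) 0 := fun z => le_max_left _ _
    have hX2 : ∀ z, max (4 * x z) 0 ≤ 4 * x z + 4 * δ := by
      intro z
      have := (hx z).1
      exact max_le (by linarith) (by linarith)
    constructor
    · rw [mul_sum]
      exact sum_le_sum fun z _ => hX1 z
    · have h1 : ∑ z ∈ univ.filter (fun z => g z = i), max (4 * x z) 0 ≤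
          ∑ z ∈ univ.filter (fun z => g z = i), (4 * x z + 4 * δ) := sum_le_sum fun z _ => hX2 z
      rw [sum_add_distrib, ← mul_sum, sum_const, nsmul_eq_mul] at h1
      have h2 : ((univ.filter (fun z => g z = i)).card : ℝ) ≤ K0 + K0 := by
        have h3 : (univ.filter (fun z => g z = i)).card ≤ K0 + K0 := by
          refine (card_filter_le _ _).trans ?_
          simp
        exact_mod_cast h3
      have h4 : ((univ.filter (fun z => g z = i)).card : ℝ) * (4 * δ) ≤ 0.00000008 := by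
        nlinarith
      linarith
  refine ⟨?_, ?_⟩
  · intro x hx hsum ν hν1 hν2
    have D := mk x hx hsum ν (by linarith) hν2
    obtain ⟨g, hg⟩ := D.main (by linarith)
    refine ⟨g, ?_⟩
    intro y hy η hη
    obtain ⟨hY, H, hH0, hH, c1, c2, c3, c4, c5⟩ :=
      hg (fun i => ∑ z ∈ univ.filter (fun z => g z = i), max (4 * x z) 0) (fun i => rfl)
    have hc : ∀ i, 4 * y i ≤ ∑ z ∈ univ.filter (fun z => g z = i), max (4 * x z) 0 ∧
        ∑ z ∈ univ.filter (fun z => g z = i), max (4 * x z) 0 ≤ 4 * y i + 0.00000008 := by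
      intro i
      rw [hy i]
      exact cmp x hx g i
    generalize (∑ z, max (4 * x z) 0) = TT at hY hH
    have hc0 := hc 0
    have hc1 := hc 1
    have hc2 := hc 2
    have hc3 := hc 3
    have hc4 := hc 4
    beta_reduce at hY hH c1 c2 c3 c4 c5
    generalize (∑ z ∈ univ.filter (fun z => g z = 0), max (4 * x z) 0) = Y0 at hY hH c1 c2 c3 c4 c5 hc0
    generalize (∑ z ∈ univ.filter (fun z => g z = 1), max (4 * x z) 0) = Y1 at hY hH c1 c2 c3 c4 c5 hc1
    generalize (∑ z ∈ univ.filter (fun z => g z = 2), max (4 * x z) 0) = Y2 at hY hH c1 c2 c3 c4 c5 hc2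
    generalize (∑ z ∈ univ.filter (fun z => g z = 3), max (4 * x z) 0) = Y3 at hY hH c1 c2 c3 c4 c5 hc3
    generalize (∑ z ∈ univ.filter (fun z => g z = 4), max (4 * x z) 0) = Y4 at hY hH c1 c2 c3 c4 c5 hc4
    obtain ⟨l0, g0⟩ := hc0
    obtain ⟨l1, g1⟩ := hc1
    obtain ⟨l2, g2⟩ := hc2
    obtain ⟨l3, g3⟩ := hc3
    obtain ⟨l4, g4⟩ := hc4
    have hη4 : 4 * η ≤ H := by
      rw [hη]
      rcases le_total 0 (y 0 + y 1 + 2 * y 2 + 2 * y 3 + 2 * y 4 - (1 - ν)) with h1 | h1
      · rw [max_eq_right h1]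
        rw [hH]
        linarith
      · rw [max_eq_left h1]
        linarith
    refine ⟨?_, ?_, ?_, ?_, ?_⟩
    · linarith
    · linarith
    · linarith
    · linarith
    · linarith
  · intro x hx hsum ν hν1 hν2
    have D := mk x hx hsum ν hν1 (by linarith)
    obtain ⟨g, hg4, hg⟩ := D.mains (by linarith)
    refine ⟨g, hg4, ?_⟩
    intro y hy η hη
    obtain ⟨hY, H, hH0, hH, c1, c2, c3, c4⟩ :=
      hg (fun i => ∑ z ∈ univ.filter (fun z => g z = i), max (4 * x z) 0) (fun i => rfl)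
    have hc : ∀ i, 4 * y i ≤ ∑ z ∈ univ.filter (fun z => g z = i), max (4 * x z) 0 ∧
        ∑ z ∈ univ.filter (fun z => g z = i), max (4 * x z) 0 ≤ 4 * y i + 0.00000008 := by
      intro i
      rw [hy i]
      exact cmp x hx g i
    generalize (∑ z, max (4 * x z) 0) = TT at hY hH
    have hc0 := hc 0
    have hc1 := hc 1
    have hc2 := hc 2
    have hc3 := hc 3
    beta_reduce at hY hH c1 c2 c3 c4
    generalize (∑ z ∈ univ.filter (fun z => g z = 0), max (4 * x z) 0) = Y0 at hY hH c1 c2 c3 c4 hc0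
    generalize (∑ z ∈ univ.filter (fun z => g z = 1), max (4 * x z) 0) = Y1 at hY hH c1 c2 c3 c4 hc1
    generalize (∑ z ∈ univ.filter (fun z => g z = 2), max (4 * x z) 0) = Y2 at hY hH c1 c2 c3 c4 hc2
    generalize (∑ z ∈ univ.filter (fun z => g z = 3), max (4 * x z) 0) = Y3 at hY hH c1 c2 c3 c4 hc3
    obtain ⟨l0, g0⟩ := hc0
    obtain ⟨l1, g1⟩ := hc1
    obtain ⟨l2, g2⟩ := hc2
    obtain ⟨l3, g3⟩ := hc3
    have hη4 : 4 * η ≤ H := by
      rw [hη]
      rcases le_total 0 (y 0 + y 1 + 2 * y 2 + 2 * y 3 - (1 - ν)) with h1 | h1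
      · rw [max_eq_right h1]
        rw [hH]
        linarith
      · rw [max_eq_left h1]
        linarith
    refine ⟨?_, ?_, ?_, ?_⟩
    · linarith
    · linarith
    · linarith
    · linarith

end Pool.Agent.J4H35.CB
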