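import Pool.Agent.Y823.Z.CombB

/-!
# The grouping lemma, third version: the sets

The proof of `Pool.Agent.Y333.Z.Comb2A` with other constants; the granularity and the window of the
set `V` depend on the total size.
-/

set_option autoImplicit false
set_option linter.unusedSectionVars false

namespace Pool.Agent.J4H35.CB

open Finset Pool.Agent.Y823.Z

section

variable {ι : Type} [Fintype ι] [DecidableEq ι]

/-- The data of the grouping lemma. -/
structure Dat3 (t X : ι → ℝ) (cl : ι → Bool) (n : ℝ) : Prop where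
  h0 : ∀ z, 0 ≤ X z
  h1 : ∀ z, X z ≤ t z
  h2 : ∀ z, t z ≤ 0.665
  hT : ∑ z, t z ≤ 2.064
  hX : 2 - 0.000001 ≤ ∑ z, X z
  hn1 : 5 / 4 - 0.000001 ≤ n
  hn2 : n ≤ 2 + 0.000001
  s0 : 0.0156 ≤ ∑ z ∈ univ.filter (fun z => t z ≤ 0.0055), t z
  s1 : 0.0342 ≤ ∑ z ∈ univ.filter (fun z => t z ≤ 0.008), t z
  s2 : 0.1114 ≤ ∑ z ∈ univ.filter (fun z => t z ≤ 0.021), t z
  s3 : 0.1774 ≤ ∑ z ∈ univ.filter (fun z => t z ≤ 0.042), t z
  s4 : 0.2938 ≤ ∑ z ∈ univ.filter (fun z => t z ≤ 0.108), t z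
  s5 : 0.3626 ≤ ∑ z ∈ univ.filter (fun z => t z ≤ 0.178), t z
  s6 : 0.4262 ≤ ∑ z ∈ univ.filter (fun z => t z ≤ 0.214), t z
  s7 : 0.4684 ≤ ∑ z ∈ univ.filter (fun z => t z ≤ 0.355), t z
  hc : ∀ b, ∑ z ∈ univ.filter (fun z => cl z = b ∧ 0.355 < t z), t z ≤ 0.878

variable {t X : ι → ℝ} {cl : ι → Bool} {n : ℝ}

theorem Dat3.le (D : Dat3 t X cl n) : ∑ z, X z ≤ 2.064 := (sum_le_sum fun z _ => D.h1 z).trans D.hT

/-- the sum of the `X z` over the small items -/
theorem Dat3.small (D : Dat3 t X cl n) (x F : ℝ)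
    (hF : F ≤ ∑ z ∈ univ.filter (fun z => t z ≤ x), t z) :
    F - 2.064 + ∑ z, X z ≤ ∑ z ∈ univ.filter (fun z => t z ≤ x), X z := by
  have h1 : ∑ z ∈ univ.filter (fun z => t z ≤ x), (t z - X z) ≤ ∑ z, (t z - X z) := by
    refine sum_le_sum_of_subset_of_nonneg (filter_subset _ _) fun z _ _ => ?_
    have := D.h1 z
    linarith
  rw [sum_sub_distrib, sum_sub_distrib] at h1
  have := D.hT
  linarith

/-- the same outside of `V` -/
theorem Dat3.star (D : Dat3 t X cl n) (V : Finset ι) (x y F : ℝ) (hxy : x < y)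
    (hF : F ≤ ∑ z ∈ univ.filter (fun z => t z ≤ x), t z) :
    F - 2.064 + ∑ z, X z - ∑ z ∈ V, X z ≤
      ∑ z ∈ (univ \ V).filter (fun z => t z < y), X z := by
  have h1 := D.small x F hF
  have h2 : ∑ z ∈ univ.filter (fun z => t z ≤ x), X z ≤
      ∑ z ∈ (univ \ V).filter (fun z => t z < y) ∪ V, X z := by
    refine sum_le_sum_of_subset_of_nonneg ?_ fun z _ _ => D.h0 z
    intro z hz
    rw [mem_filter] at hz
    rw [mem_union, mem_filter, mem_sdiff]
    by_cases hzV : z ∈ V
    · exact Or.inr hzV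
    · exact Or.inl ⟨⟨mem_univ _, hzV⟩, lt_of_le_of_lt hz.2 hxy⟩
  have h3 : ∑ z ∈ (univ \ V).filter (fun z => t z < y) ∪ V, X z ≤
      ∑ z ∈ (univ \ V).filter (fun z => t z < y), X z + ∑ z ∈ V, X z := by
    have h4 := sum_union_inter (s₁ := (univ \ V).filter (fun z => t z < y)) (s₂ := V) (f := X)
    have h5 : 0 ≤ ∑ z ∈ (univ \ V).filter (fun z => t z < y) ∩ V, X z :=
      sum_nonneg fun z _ => D.h0 z
    linarith
  linarith

/-- Step 1: the set `V`, with a reserve `ζ` of very small items -/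
theorem Dat3.step1aux (D : Dat3 t X cl n) (τp h e ζ : ℝ) (hτ0 : 0 ≤ τp) (hh : 0 ≤ h) (he : 0 ≤ e)
    (hζ0 : 0 ≤ ζ) (hζ : ζ ≤ 0.0156 - 2.064 + ∑ z, X z ∨ ζ = 0)
    (hb : 0.02101 ≤ e ∨ (0.00801 ≤ e ∧ 0.021 ≤ e - 0.00001 + 0.0342 - 2.064 + ∑ z, X z - ζ - 0.0055))
    (hc : τp + h / 2 + 0.00001 ≤ 0.1114 - 2.064 + ∑ z, X z - ζ - 0.0055) :
    ∃ V : Finset ι, τp + h / 2 + 0.00001 ≤ ∑ z ∈ V, X z ∧ ∑ z ∈ V, X z ≤ τp + h / 2 + e ∧
    ζ ≤ ∑ z ∈ (univ \ V).filter (fun z => t z ≤ 0.0055), X z := by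
  set S2 : Finset ι := univ.filter (fun z => t z ≤ 0.0055) with hS2
  obtain ⟨Z, hZS, hZc, hZ⟩ := greedy X (ζ + 0.0055) (by linarith) S2 (fun z _ => D.h0 z)
  have hZ1 : ζ ≤ ∑ z ∈ Z, X z := by
    rcases hZ with hZ | ⟨r, hrS, _, hr1, _⟩
    · rcases hζ with h1 | h1
      · have g1 := D.small _ _ D.s0
        rw [hZ, hS2]
        linarith
      · rw [h1]
        exact sum_nonneg fun z _ => D.h0 z
    · have h2 : X r ≤ 0.0055 := (D.h1 r).trans (mem_filter.1 hrS).2
      have h3 : ∑ z ∈ Z.filter (fun z => X r ≤ X z), X z ≤ ∑ z ∈ Z, X z :=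
        sum_le_sum_of_subset_of_nonneg (filter_subset _ _) fun z _ _ => D.h0 z
      linarith
  set S1 : Finset ι := (univ.filter (fun z => t z ≤ 0.021)) \ Z with hS1
  obtain ⟨V, hVS, hVc, hV⟩ := greedy X (τp + h / 2 + e) (by linarith) S1 (fun z _ => D.h0 z)
  have hZsub : Z ⊆ univ.filter (fun z => t z ≤ 0.021) := by
    intro z hz
    have h3 := (mem_filter.1 (hZS hz)).2
    rw [mem_filter]
    exact ⟨mem_univ _, by linarith⟩
  refine ⟨V, ?_, hVc, ?_⟩
  · rcases hV with hV | ⟨r, hrS, _, hr1, hr2⟩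
    · have g1 := D.small _ _ D.s2
      have h3 := sum_sdiff (f := X) hZsub
      rw [hV, hS1]
      linarith
    · by_contra hcon
      push Not at hcon
      have h3 : ∑ z ∈ V, X z = ∑ z ∈ V.filter (fun z => X r ≤ X z), X z +
          ∑ z ∈ V.filter (fun z => ¬ X r ≤ X z), X z := (sum_filter_add_sum_filter_not _ _ _).symm
      have h4 : 0 ≤ ∑ z ∈ V.filter (fun z => ¬ X r ≤ X z), X z := sum_nonneg fun z _ => D.h0 z
      have h5 : X r ≤ 0.021 := (D.h1 r).trans (mem_filter.1 (mem_sdiff.1 hrS).1).2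
      have h6 : e - 0.00001 < X r := by linarith
      rcases hb with hb | ⟨hb1, hb2⟩
      · linarith
      · have g1 := D.small _ _ D.s1
        have h7 : ∑ z ∈ univ.filter (fun z => t z ≤ 0.008), X z ≤
            ∑ z ∈ V.filter (fun z => ¬ X r ≤ X z) ∪ Z, X z := by
          refine sum_le_sum_of_subset_of_nonneg ?_ fun z _ _ => D.h0 z
          intro z hz
          rw [mem_filter] at hz
          rw [mem_union]
          by_cases hzZ : z ∈ Z
          · exact Or.inr hzZ
          · left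
            have h8 : X z < X r := by
              have := D.h1 z
              linarith [hz.2]
            rw [mem_filter]
            refine ⟨hr2 z ?_ h8, not_le.2 h8⟩
            rw [hS1, mem_sdiff, mem_filter]
            exact ⟨⟨mem_univ _, by linarith [hz.2]⟩, hzZ⟩
        have h8 : ∑ z ∈ V.filter (fun z => ¬ X r ≤ X z) ∪ Z, X z ≤
            ∑ z ∈ V.filter (fun z => ¬ X r ≤ X z), X z + ∑ z ∈ Z, X z := by
          have h9 := sum_union_inter (s₁ := V.filter (fun z => ¬ X r ≤ X z)) (s₂ := Z) (f := X)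
          have h10 : 0 ≤ ∑ z ∈ V.filter (fun z => ¬ X r ≤ X z) ∩ Z, X z :=
            sum_nonneg fun z _ => D.h0 z
          linarith
        linarith
  · refine hZ1.trans ?_
    refine sum_le_sum_of_subset_of_nonneg ?_ fun z _ _ => D.h0 z
    intro z hz
    rw [mem_filter, mem_sdiff]
    refine ⟨⟨mem_univ _, fun h' => ?_⟩, (mem_filter.1 (hZS hz)).2⟩
    exact (mem_sdiff.1 (hVS h')).2 hz

/-- Step 1: the set `V` -/
theorem Dat3.step1 (D : Dat3 t X cl n) (τp : ℝ) (hτ0 : 0 ≤ τp)
    (hτ : τp ≤ ∑ z, X z - 2 + 0.000001) : ∃ (h : ℝ) (V : Finset ι),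
    0.0055 ≤ h ∧ h ≤ 0.034 ∧ h ≤ 2.0695 - ∑ z, X z ∧
    τp + h / 2 + 0.00001 ≤ ∑ z ∈ V, X z ∧
    ∑ z ∈ V, X z ≤ 0.0749 + (2.064 - ∑ z, X z) / 2 ∧
    ∑ z ∈ V, X z + 2.064 - ∑ z, X z - h ≤ 0.0694 ∧
    0.02101 - h ≤ ∑ z ∈ (univ \ V).filter (fun z => t z ≤ 0.0055), X z := by
  have hle := D.le
  have hX := D.hX
  rcases le_total (2.064 - ∑ z, X z) 0.01551 with hA | hA
  · obtain ⟨V, h1, h2, h3⟩ := D.step1aux τp (2.0695 - ∑ z, X z) 0.0081 (0.01551 - (2.064 - ∑ z, X z)) hτ0
      (by linarith) (by norm_num) (by linarith) (Or.inl (by linarith))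
      (Or.inr ⟨by norm_num, by linarith⟩) (by linarith)
    exact ⟨_, V, by linarith, by linarith, le_rfl, h1, by linarith, by linarith, by linarith⟩
  · rcases le_total (2.064 - ∑ z, X z) 0.0285 with hB | hB
    · obtain ⟨V, h1, h2, h3⟩ := D.step1aux τp (2.0695 - ∑ z, X z) (0.0081 + (2.064 - ∑ z, X z) - 0.0155) 0 hτ0
        (by linarith) (by linarith) le_rfl (Or.inr rfl) (Or.inr ⟨by linarith, by linarith⟩) (by linarith)
      exact ⟨_, V, by linarith, by linarith, le_rfl, h1, by linarith, by linarith, by linarith⟩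
    · obtain ⟨V, h1, h2, h3⟩ := D.step1aux τp 0.034 0.02101 0 hτ0
        (by norm_num) (by norm_num) le_rfl (Or.inr rfl) (Or.inl le_rfl) (by linarith)
      exact ⟨_, V, by norm_num, by norm_num, by linarith, h1, by linarith, by linarith, by linarith⟩

/-- Step 1 without a set `V` -/
theorem Dat3.step1' (D : Dat3 t X cl n) : ∃ (h : ℝ),
    0.0055 ≤ h ∧ h ≤ 0.034 ∧ h ≤ 2.0695 - ∑ z, X z ∧
    ∑ z ∈ (∅ : Finset ι), X z + 2.064 - ∑ z, X z - h ≤ 0.0694 ∧
    0.02101 - h ≤ ∑ z ∈ (univ \ (∅ : Finset ι)).filter (fun z => t z ≤ 0.0055), X z := by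
  have hle := D.le
  have hX := D.hX
  rw [sum_empty, sdiff_empty]
  have g1 := D.small _ _ D.s0
  have h0 : 0 ≤ ∑ z ∈ univ.filter (fun z => t z ≤ 0.0055), X z := sum_nonneg fun z _ => D.h0 z
  rcases le_total (2.064 - ∑ z, X z) 0.0285 with hB | hB
  · refine ⟨2.0695 - ∑ z, X z, by linarith, by linarith, le_rfl, by linarith, ?_⟩
    linarith
  · exact ⟨0.034, by norm_num, by norm_num, by linarith, by linarith, by linarith⟩

/-- at most three large items -/
theorem Dat3.card_large (D : Dat3 t X cl n) (L : Finset ι) (hL : ∀ z ∈ L, 0.399 < X z) :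
    L.card ≤ 3 := by
  by_contra hcon
  push Not at hcon
  have h1 : (L.card : ℝ) * 0.399 ≤ ∑ z ∈ L, t z := by
    rw [← nsmul_eq_mul, ← sum_const]
    refine sum_le_sum fun z hz => ?_
    have := hL z hz
    have := D.h1 z
    linarith
  have h2 : ∑ z ∈ L, t z + ∑ z ∈ univ.filter (fun z => t z ≤ 0.355), t z ≤ ∑ z, t z := by
    rw [← sum_union]
    · refine sum_le_sum_of_subset_of_nonneg (subset_univ _) fun z _ _ => ?_
      have := D.h0 z
      have := D.h1 z
      linarith
    · rw [disjoint_left]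
      intro z hz hz2
      have := hL z hz
      have := D.h1 z
      have := (mem_filter.1 hz2).2
      linarith
  have h3 : (4 : ℝ) ≤ L.card := by exact_mod_cast hcon
  have := D.s7
  have := D.hT
  linarith

/-- at most two very large items -/
theorem Dat3.card_large2 (D : Dat3 t X cl n) (L : Finset ι) (hL : ∀ z ∈ L, 0.58 < X z) :
    L.card ≤ 2 := by
  by_contra hcon
  push Not at hcon
  have h1 : (L.card : ℝ) * 0.58 ≤ ∑ z ∈ L, t z := by
    rw [← nsmul_eq_mul, ← sum_const]
    refine sum_le_sum fun z hz => ?_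
    have := hL z hz
    have := D.h1 z
    linarith
  have h2 : ∑ z ∈ L, t z + ∑ z ∈ univ.filter (fun z => t z ≤ 0.355), t z ≤ ∑ z, t z := by
    rw [← sum_union]
    · refine sum_le_sum_of_subset_of_nonneg (subset_univ _) fun z _ _ => ?_
      have := D.h0 z
      have := D.h1 z
      linarith
    · rw [disjoint_left]
      intro z hz hz2
      have := hL z hz
      have := D.h1 z
      have := (mem_filter.1 hz2).2
      linarith
  have h3 : (3 : ℝ) ≤ L.card := by exact_mod_cast hcon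
  have := D.s7
  have := D.hT
  linarith

/-- two large items in the same cell -/
theorem Dat3.pair (D : Dat3 t X cl n) (a b : ι) (hab : a ≠ b) (ha : 0.399 < X a) (hb : 0.399 < X b)
    (hcl : cl a = cl b) : X a + X b ≤ 0.878 := by
  have h1 : ∑ z ∈ ({a, b} : Finset ι), t z ≤
      ∑ z ∈ univ.filter (fun z => cl z = cl b ∧ 0.355 < t z), t z := by
    refine sum_le_sum_of_subset_of_nonneg ?_ fun z _ _ => ?_
    · intro z hz
      rw [mem_filter]
      rw [mem_insert, mem_singleton] at hz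
      rcases hz with h | h
      · rw [h]
        have := D.h1 a
        exact ⟨mem_univ _, hcl, by linarith⟩
      · rw [h]
        have := D.h1 b
        exact ⟨mem_univ _, rfl, by linarith⟩
    · have := D.h0 z
      have := D.h1 z
      linarith
  rw [sum_pair hab] at h1
  have := D.hc (cl b)
  have := D.h1 a
  have := D.h1 b
  linarith

/-- three large items -/
theorem Dat3.triple (D : Dat3 t X cl n) (r a b : ι) (hra : r ≠ a) (hrb : r ≠ b) (hab : a ≠ b)
    (hr : 0.399 < X r) (ha : X r ≤ X a) (hb : X r ≤ X b) :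
    X a + X b + 2 * X r ≤ 1.982 := by
  have h1 := D.h1 a
  have h2 := D.h1 b
  have h3 := D.h2 a
  have h4 := D.h2 b
  have ha' : 0.399 < X a := hr.trans_le ha
  have hb' : 0.399 < X b := hr.trans_le hb
  by_cases h5 : cl r = cl a
  · have := D.pair r a hra hr ha' h5
    linarith
  · by_cases h6 : cl r = cl b
    · have := D.pair r b hrb hr hb' h6
      linarith
    · have h7 : cl a = cl b := by
        revert h5 h6
        cases cl r <;> cases cl a <;> cases cl b <;> simp
      have := D.pair a b hab ha' hb' h7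
      linarith

/-- Step 2: the set `R` -/
theorem Dat3.step2 (D : Dat3 t X cl n) (h : ℝ) (V : Finset ι) (hh : 0.0055 ≤ h)
    (hV : ∑ z ∈ V, X z + 2.064 - ∑ z, X z - h ≤ 0.0694)
    (hm : 0.02101 - h ≤ ∑ z ∈ (univ \ V).filter (fun z => t z ≤ 0.0055), X z)
    (hnV : n < 1.4 → ∑ z ∈ V, X z ≤ 0) :
    ∃ R ⊆ univ \ V, ∑ z ∈ R, X z ≤ n - 0.00001 ∧
      (R = univ \ V ∨ n - h - 0.00001 ≤ ∑ z ∈ R, X z) := by
  have hn1 := D.hn1
  have hle := D.le
  have hXX := D.hX
  obtain ⟨R, hRS, hRc, hR⟩ := greedy X (n - 0.00001) (by linarith) (univ \ V) (fun z _ => D.h0 z)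
  refine ⟨R, hRS, hRc, ?_⟩
  rcases hR with hR | ⟨r, hrS, hrR, hr1, hr2⟩
  · exact Or.inl hR
  right
  by_contra hcon
  push Not at hcon
  -- the sum of the later items
  have h1 : ∑ z ∈ R, X z = ∑ z ∈ R.filter (fun z => X r ≤ X z), X z +
      ∑ z ∈ R.filter (fun z => ¬ X r ≤ X z), X z := (sum_filter_add_sum_filter_not _ _ _).symm
  have h2 : ∑ z ∈ R.filter (fun z => ¬ X r ≤ X z), X z < X r - h := by linarith
  have h3 : ∑ z ∈ (univ \ V).filter (fun z => t z < X r), X z ≤
      ∑ z ∈ R.filter (fun z => ¬ X r ≤ X z), X z := by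
    refine sum_le_sum_of_subset_of_nonneg ?_ fun z _ _ => D.h0 z
    intro z hz
    rw [mem_filter] at hz ⊢
    have h4 : X z < X r := (D.h1 z).trans_lt hz.2
    exact ⟨hr2 z hz.1 h4, not_le.2 h4⟩
  have h0 : 0 ≤ ∑ z ∈ R.filter (fun z => ¬ X r ≤ X z), X z := sum_nonneg fun z _ => D.h0 z
  have key : ∀ x F : ℝ, x < X r → F ≤ ∑ z ∈ univ.filter (fun z => t z ≤ x), t z →
      F - 0.0694 < X r := by
    intro x F hx hF
    have := D.star V x (X r) F hx hF
    linarith
  have y0 : 0.0055 < X r := by linarith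
  have y1 : 0.021 < X r := by
    have h4 : ∑ z ∈ (univ \ V).filter (fun z => t z ≤ 0.0055), X z ≤
        ∑ z ∈ (univ \ V).filter (fun z => t z < X r), X z := by
      refine sum_le_sum_of_subset_of_nonneg ?_ fun z _ _ => D.h0 z
      intro z hz
      rw [mem_filter] at hz ⊢
      exact ⟨hz.1, lt_of_le_of_lt hz.2 y0⟩
    linarith
  have y2 := key _ _ y1 D.s2
  have y3 := key _ _ (show (0.042 : ℝ) < X r by linarith) D.s3
  have y4 := key _ _ (show (0.108 : ℝ) < X r by linarith) D.s4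
  have y5 := key _ _ (show (0.214 : ℝ) < X r by linarith) D.s6
  have y6' := key _ _ (show (0.355 : ℝ) < X r by linarith) D.s7
  have y6 : 0.399 < X r := by linarith
  -- large items
  have hB := D.card_large (insert r (R.filter (fun z => X r ≤ X z))) (by
    intro z hz
    rcases mem_insert.1 hz with h | h
    · rw [h]
      exact y6
    · exact y6.trans_le (mem_filter.1 h).2)
  rw [card_insert_of_notMem (fun h => hrR (mem_filter.1 h).1)] at hB
  have hle : ∀ z, X z ≤ 0.665 := fun z => (D.h1 z).trans (D.h2 z)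
  have h9' : univ \ V ⊆ insert r R → ∑ z, X z - ∑ z ∈ V, X z ≤ X r + ∑ z ∈ R, X z := by
    intro hall
    have h10 : ∑ z ∈ univ \ V, X z ≤ ∑ z ∈ insert r R, X z :=
      sum_le_sum_of_subset_of_nonneg hall fun z _ _ => D.h0 z
    rw [sum_insert hrR] at h10
    have h11 := sum_sdiff (f := X) (subset_univ V)
    linarith
  have hB2 : 2 ≤ (R.filter (fun z => X r ≤ X z)).card := by
    by_contra hlt
    push Not at hlt
    have h5 : ∑ z ∈ R.filter (fun z => X r ≤ X z), X z ≤ 0.665 := by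
      have h6 : ∑ z ∈ R.filter (fun z => X r ≤ X z), X z ≤
          ∑ _z ∈ R.filter (fun z => X r ≤ X z), (0.665 : ℝ) := sum_le_sum fun z _ => hle z
      rw [sum_const, nsmul_eq_mul] at h6
      have h7 : ((R.filter (fun z => X r ≤ X z)).card : ℝ) ≤ 1 := by
        exact_mod_cast (by omega : (R.filter (fun z => X r ≤ X z)).card ≤ 1)
      linarith
    have hr665 := hle r
    have hn14 : n < 1.4 := by linarith
    have hV0 := hnV hn14
    have hbig : 0.58 < X r := by linarith
    have hne : (R.filter (fun z => X r ≤ X z)).Nonempty := by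
      rw [nonempty_iff_ne_empty]
      intro he
      rw [he, sum_empty] at hr1
      linarith
    obtain ⟨a, ha⟩ := hne
    have haX : 0.58 < X a := hbig.trans_le (mem_filter.1 ha).2
    have hra : r ≠ a := fun h => hrR (h ▸ (mem_filter.1 ha).1)
    have hall : univ \ V ⊆ insert r R := by
      intro z hz
      rw [mem_insert]
      by_contra hcon2
      push Not at hcon2
      have hz1 : X r ≤ X z := by
        by_contra h
        exact hcon2.2 (hr2 z hz (not_le.1 h))
      have hza : z ≠ a := fun h => hcon2.2 (h ▸ (mem_filter.1 ha).1)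
      have h8 := D.card_large2 {z, r, a} (by
        intro w hw
        simp only [mem_insert, mem_singleton] at hw
        rcases hw with h | h | h
        · rw [h]; exact hbig.trans_le hz1
        · rw [h]; exact hbig
        · rw [h]; exact haX)
      rw [card_insert_of_notMem (by simp [hcon2.1, hza]), card_pair hra] at h8
      omega
    have := h9' hall
    linarith
  have hB3 : (R.filter (fun z => X r ≤ X z)).card = 2 := by omega
  obtain ⟨a, b, hab, hRab⟩ := card_eq_two.1 hB3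
  have haR : a ∈ R.filter (fun z => X r ≤ X z) := by rw [hRab]; simp
  have hbR : b ∈ R.filter (fun z => X r ≤ X z) := by rw [hRab]; simp
  have hra : r ≠ a := fun h => hrR (h ▸ (mem_filter.1 haR).1)
  have hrb : r ≠ b := fun h => hrR (h ▸ (mem_filter.1 hbR).1)
  have htr := D.triple r a b hra hrb hab y6 (mem_filter.1 haR).2 (mem_filter.1 hbR).2
  have hsum : ∑ z ∈ R.filter (fun z => X r ≤ X z), X z = X a + X b := by
    rw [hRab, sum_pair hab]
  -- everything else is accepted
  have hall : univ \ V ⊆ insert r R := by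
    intro z hz
    rw [mem_insert]
    by_contra hcon2
    push Not at hcon2
    have hz1 : X r ≤ X z := by
      by_contra h
      exact hcon2.2 (hr2 z hz (not_le.1 h))
    have h8 := D.card_large (insert z (insert r {a, b})) (by
      intro w hw
      simp only [mem_insert, mem_singleton] at hw
      rcases hw with h | h | h | h
      · rw [h]; exact y6.trans_le hz1
      · rw [h]; exact y6
      · rw [h]; exact y6.trans_le (mem_filter.1 haR).2
      · rw [h]; exact y6.trans_le (mem_filter.1 hbR).2)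
    have hza : z ≠ a := fun h => hcon2.2 (h ▸ (mem_filter.1 haR).1)
    have hzb : z ≠ b := fun h => hcon2.2 (h ▸ (mem_filter.1 hbR).1)
    rw [card_insert_of_notMem (by simp [hcon2.1, hza, hzb]),
      card_insert_of_notMem (by simp [hra, hrb]), card_pair hab] at h8
    omega
  have h9 := h9' hall
  linarith

end

end Pool.Agent.J4H35.CB
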